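import Mathlib

set_option autoImplicit false

namespace Pool.Agent.Y78.SC

/-- A regular simplex of edge one in `ℝ^n`: the convex hull of `n + 1` points with all pairwise
distances equal to one. -/
def IsUnitSimplex {n : ℕ} (S : Set (EuclideanSpace ℝ (Fin n))) : Prop :=
  ∃ v : Fin (n + 1) → EuclideanSpace ℝ (Fin n),
    (∀ i j, i ≠ j → dist (v i) (v j) = 1) ∧ S = convexHull ℝ (Set.range v)

/-- The unit cube. -/
def cube (n : ℕ) : Set (EuclideanSpace ℝ (Fin n)) := {x | ∀ i, 0 ≤ x i ∧ x i ≤ 1}

/-- A packing: finitely many regular simplices of edge one in the unit cube whose interiors are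
pairwise disjoint. -/
def IsPacking {n : ℕ} (F : Finset (Set (EuclideanSpace ℝ (Fin n)))) : Prop :=
  (∀ S ∈ F, IsUnitSimplex S ∧ S ⊆ cube n) ∧
    ∀ S ∈ F, ∀ T ∈ F, S ≠ T → Disjoint (interior S) (interior T)

/-- The largest number of simplices in a packing. -/
noncomputable def packingNumber (n : ℕ) : ℕ :=
  sSup {k : ℕ | ∃ F : Finset (Set (EuclideanSpace ℝ (Fin n))), IsPacking F ∧ F.card = k}

end Pool.Agent.Y78.SC
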