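import Pool.Agent.Y78.SC.Main

set_option autoImplicit false

/-!
The greedy packing and the final bounds.
-/

namespace Pool.Agent.Y78.SC

open Finset MeasureTheory
open scoped Pointwise

variable {n : ℕ}

/-- Admissible sets of translation vectors. -/
def Sep (X : Finset (EuclideanSpace ℝ (Fin n))) : Prop :=
  (∀ x ∈ X, ∀ k, 1 / √(n + 1) ≤ x k ∧ x k ≤ 1 - 1 / √(n + 1)) ∧
    ∀ x ∈ X, ∀ y ∈ X, x ≠ y → x - y ∉ S0 n - S0 n

lemma disjoint_of_sep {x y : EuclideanSpace ℝ (Fin n)} (h : x - y ∉ S0 n - S0 n) :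
    Disjoint (x +ᵥ S0 n) (y +ᵥ S0 n) := by
  rw [Set.disjoint_left]
  rintro _ ⟨p, hp, rfl⟩ ⟨q, hq, hpq⟩
  apply h
  refine ⟨q, hq, p, hp, ?_⟩
  change q - p = x - y
  have h2 : y + q = x + p := hpq
  have h3 : q = x + p - y := by rw [← h2]; abel
  rw [h3]; abel

lemma packing_of_sep (X : Finset (EuclideanSpace ℝ (Fin n))) (hX : Sep X) :
    ∃ F : Finset (Set (EuclideanSpace ℝ (Fin n))), IsPacking F ∧ F.card = X.card := by
  classical
  refine ⟨X.image fun x => x +ᵥ S0 n, ⟨?_, ?_⟩, ?_⟩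
  · intro S hS
    obtain ⟨x, hx, rfl⟩ := Finset.mem_image.1 hS
    refine ⟨translate_simplex x, ?_⟩
    rintro _ ⟨p, hp, rfl⟩ k
    have h1 := hX.1 x hx k
    have h2 := abs_le.1 (abs_le_of_mem_S0 hp k)
    change 0 ≤ x k + p k ∧ x k + p k ≤ 1
    constructor <;> linarith [h1.1, h1.2, h2.1, h2.2]
  · intro S hS T hT hST
    obtain ⟨x, hx, rfl⟩ := Finset.mem_image.1 hS
    obtain ⟨y, hy, rfl⟩ := Finset.mem_image.1 hT
    have hxy : x ≠ y := fun h => hST (by rw [h])
    exact (disjoint_of_sep (hX.2 x hx y hy hxy)).mono interior_subset interior_subset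
  · apply Finset.card_image_of_injOn
    intro x hx y hy hxy
    by_contra hne
    have h := disjoint_of_sep (hX.2 x hx y hy hne)
    simp only at hxy
    rw [hxy, disjoint_self] at h
    obtain ⟨p, hp⟩ := (S0_nonempty (n := n))
    have : (y +ᵥ p) ∈ (y +ᵥ S0 n) := Set.vadd_mem_vadd_set hp
    rw [h] at this
    exact this

lemma zero_mem_diff : (0 : EuclideanSpace ℝ (Fin n)) ∈ S0 n - S0 n := by
  obtain ⟨p, hp⟩ := (S0_nonempty (n := n))
  exact ⟨p, hp, p, hp, sub_self p⟩

lemma neg_mem_diff {z : EuclideanSpace ℝ (Fin n)} (h : z ∈ S0 n - S0 n) : -z ∈ S0 n - S0 n := by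
  obtain ⟨p, hp, q, hq, rfl⟩ := h
  exact ⟨q, hq, p, hp, (neg_sub p q).symm⟩

/-- The greedy argument. -/
lemma exists_large (hn : 1 ≤ n) : ∃ X : Finset (EuclideanSpace ℝ (Fin n)), Sep X ∧
    {x : EuclideanSpace ℝ (Fin n) | ∀ k, 1 / √(n + 1) ≤ x k ∧ x k ≤ 1 - 1 / √(n + 1)} ⊆
      ⋃ x ∈ X, x +ᵥ (S0 n - S0 n) := by
  classical
  have hne : {k : ℕ | ∃ X : Finset (EuclideanSpace ℝ (Fin n)), Sep X ∧ X.card = k}.Nonempty :=
    ⟨0, ∅, ⟨by simp, by simp⟩, by simp⟩
  have hbdd : BddAbove {k : ℕ | ∃ X : Finset (EuclideanSpace ℝ (Fin n)), Sep X ∧ X.card = k} := by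
    refine (bddAbove hn).mono ?_
    rintro k ⟨X, hX, rfl⟩
    exact packing_of_sep X hX
  obtain ⟨X, hX, hk⟩ := Nat.sSup_mem hne hbdd
  refine ⟨X, hX, ?_⟩
  intro q hq
  by_contra hcon
  simp only [Set.mem_iUnion, not_exists] at hcon
  have h1 : ∀ x ∈ X, q - x ∉ S0 n - S0 n := by
    intro x hx h
    apply hcon x hx
    refine ⟨q - x, h, ?_⟩
    change x + (q - x) = q
    abel
  have h1' : ∀ x ∈ X, x - q ∉ S0 n - S0 n := by
    intro x hx h
    apply h1 x hx
    have := neg_mem_diff h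
    rwa [neg_sub] at this
  have hqX : q ∉ X := by
    intro h
    apply h1 q h
    rw [sub_self]
    exact zero_mem_diff
  have hsep : Sep (insert q X) := by
    refine ⟨?_, ?_⟩
    · intro x hx
      rcases Finset.mem_insert.1 hx with rfl | hx
      · exact hq
      · exact hX.1 x hx
    · intro x hx y hy hxy
      rcases Finset.mem_insert.1 hx with hx' | hx'
      · rcases Finset.mem_insert.1 hy with hy' | hy'
        · exact absurd (hx'.trans hy'.symm) hxy
        · rw [hx']; exact h1 y hy'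
      · rcases Finset.mem_insert.1 hy with hy' | hy'
        · rw [hy']; exact h1' x hx'
        · exact hX.2 x hx' y hy' hxy
  have h2 := le_csSup hbdd ⟨insert q X, hsep, rfl⟩
  rw [Finset.card_insert_of_notMem hqX] at h2
  omega

lemma two_div_lt (hn : 4 ≤ n) : 2 / √((n : ℝ) + 1) ≤ 0.8945 := by
  have h5 : (5 : ℝ) ≤ n + 1 := by
    have : (4 : ℝ) ≤ n := by exact_mod_cast hn
    linarith
  have h1 : (2.236 : ℝ) ≤ √((n : ℝ) + 1) := by
    apply Real.le_sqrt_of_sq_le
    norm_num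
    linarith
  rw [div_le_iff₀ (by linarith)]
  nlinarith

/-- The lower bound. -/
theorem le_packingNumber (hn : 4 ≤ n) :
    (√2 / 4 * (1 - 2 / √(n + 1))) ^ n * n.factorial / √(n + 1) ≤ (packingNumber n : ℝ) := by
  have hn1 : 1 ≤ n := by omega
  obtain ⟨X, hX, hcov⟩ := exists_large hn1
  obtain ⟨F, hF, hFX⟩ := packing_of_sep X hX
  have h1 : (X.card : ℝ) ≤ packingNumber n := by
    have := le_csSup (bddAbove hn1) ⟨F, hF, hFX⟩
    exact_mod_cast this
  refine le_trans ?_ h1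
  set δ : ℝ := 1 / √(n + 1) with hδ
  have hδ2 : 2 / √((n : ℝ) + 1) = 2 * δ := by rw [hδ]; ring
  have hlt := two_div_lt hn
  rw [hδ2] at hlt ⊢
  have h2 := measure_mono (μ := volume) hcov
  rw [vol_box] at h2
  set c : ℝ := √((n + 1) / 2 ^ n) * (4 ^ n / n.factorial) with hc
  have hcpos : 0 < c := by rw [hc]; positivity
  have h3 : volume (⋃ x ∈ X, x +ᵥ (S0 n - S0 n)) ≤ (X.card : ENNReal) * ENNReal.ofReal c := by
    refine (measure_biUnion_finset_le _ _).trans ?_
    rw [← nsmul_eq_mul, ← Finset.sum_const]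
    refine Finset.sum_le_sum fun x _ => ?_
    rw [measure_vadd]
    exact vol_diff hn1
  have h4 : (1 - δ - δ) ^ n ≤ X.card * c := by
    have e1 : ENNReal.ofReal (1 - δ - δ) ^ n = ENNReal.ofReal ((1 - δ - δ) ^ n) :=
      (ENNReal.ofReal_pow (by linarith) n).symm
    have e2 : (X.card : ENNReal) * ENNReal.ofReal c = ENNReal.ofReal (X.card * c) := by
      rw [ENNReal.ofReal_mul (p := (X.card : ℝ)) (q := c) (by positivity),
        ENNReal.ofReal_natCast]
    have h5 := h2.trans h3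
    rw [e1, e2] at h5
    exact (ENNReal.ofReal_le_ofReal_iff (by positivity)).1 h5
  have h5 : (√2 / 4 * (1 - 2 * δ)) ^ n * n.factorial / √(n + 1) * c = (1 - 2 * δ) ^ n := by
    rw [hc, Real.sqrt_div (by positivity)]
    have e2 : √((2 : ℝ) ^ n) = (√2) ^ n := by
      rw [← Real.sqrt_sq (by positivity : (0 : ℝ) ≤ (√2) ^ n), ← pow_mul, mul_comm n 2, pow_mul,
        Real.sq_sqrt (by norm_num)]
    rw [e2, mul_pow, div_pow]
    have h8 : √((n : ℝ) + 1) ≠ 0 := by positivity
    have h9 : (√2 : ℝ) ^ n ≠ 0 := by positivity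
    have h10 : (n.factorial : ℝ) ≠ 0 := by positivity
    field_simp
  rw [← mul_le_mul_iff_of_pos_right hcpos, h5]
  have e3 : 1 - 2 * δ = 1 - δ - δ := by ring
  rw [e3]
  exact h4

lemma exp_ge : (27 : ℝ) ≤ Real.exp (7 / 2) := by
  have h1 : (2.7 : ℝ) ≤ Real.exp 1 := by
    have := Real.exp_one_gt_d9
    linarith
  have h2 : Real.exp (7 / 2) ^ 2 = Real.exp 1 ^ 7 := by
    rw [← Real.exp_nat_mul, ← Real.exp_nat_mul]
    norm_num
  have h3 : (27 : ℝ) ^ 2 ≤ Real.exp (7 / 2) ^ 2 := by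
    rw [h2]
    calc (27 : ℝ) ^ 2 ≤ 2.7 ^ 7 := by norm_num
      _ ≤ Real.exp 1 ^ 7 := by gcongr
  exact (pow_le_pow_iff_left₀ (by norm_num) (Real.exp_pos _).le (by norm_num)).1 h3

/-- The logarithm of the packing number. -/
theorem abs_log_sub_le (hn : 4 ≤ n) :
    |Real.log (packingNumber n) - n * Real.log n| ≤ 5 * n := by
  have hn0 : (0 : ℝ) < n := by
    have : 0 < n := by omega
    exact_mod_cast this
  have hlow := le_packingNumber hn
  have hup := packingNumber_le (n := n) (by omega)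
  have h2 : (1.414 : ℝ) ≤ √2 := Real.le_sqrt_of_sq_le (by norm_num)
  have hδ := two_div_lt hn
  -- the base of the lower bound
  have hbase : Real.exp (-(7 / 2)) ≤ √2 / 4 * (1 - 2 / √((n : ℝ) + 1)) := by
    have h3 : Real.exp (-(7 / 2)) ≤ 1 / 27 := by
      rw [Real.exp_neg, one_div]
      exact inv_anti₀ (by norm_num) exp_ge
    refine h3.trans ?_
    have h4 : (0.3535 : ℝ) ≤ √2 / 4 := by linarith
    have h5 : (0.1055 : ℝ) ≤ 1 - 2 / √((n : ℝ) + 1) := by linarith
    calc (1 / 27 : ℝ) ≤ 0.3535 * 0.1055 := by norm_num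
      _ ≤ √2 / 4 * (1 - 2 / √((n : ℝ) + 1)) := mul_le_mul h4 h5 (by norm_num) (by positivity)
  have hfac : (n : ℝ) ^ n * Real.exp (-n) ≤ n.factorial := by
    have := Real.pow_div_factorial_le_exp (n : ℝ) hn0.le n
    rw [div_le_iff₀ (by positivity)] at this
    rw [Real.exp_neg, ← div_eq_mul_inv, div_le_iff₀ (Real.exp_pos _), mul_comm]
    exact this
  have hsqrt : √((n : ℝ) + 1) ≤ Real.exp (n / 2) := by
    apply Real.sqrt_le_iff.2
    refine ⟨(Real.exp_pos _).le, ?_⟩
    rw [← Real.exp_nat_mul]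
    have : ((2 : ℕ) : ℝ) * (n / 2 : ℝ) = n := by push_cast; ring
    rw [this]
    linarith [Real.add_one_le_exp (n : ℝ)]
  have hL : (n : ℝ) ^ n * Real.exp (-(5 * n)) ≤ (packingNumber n : ℝ) := by
    refine le_trans ?_ hlow
    rw [le_div_iff₀ (by positivity)]
    calc (n : ℝ) ^ n * Real.exp (-(5 * n)) * √(n + 1)
        ≤ (n : ℝ) ^ n * Real.exp (-(5 * n)) * Real.exp (n / 2) := by gcongr
      _ = Real.exp (-(7 / 2)) ^ n * ((n : ℝ) ^ n * Real.exp (-n)) := by
          rw [← Real.exp_nat_mul]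
          have e : Real.exp (-(5 * (n : ℝ))) * Real.exp (n / 2) =
              Real.exp ((n : ℝ) * -(7 / 2)) * Real.exp (-n) := by
            rw [← Real.exp_add, ← Real.exp_add]
            congr 1
            ring
          calc (n : ℝ) ^ n * Real.exp (-(5 * n)) * Real.exp (n / 2)
              = (n : ℝ) ^ n * (Real.exp (-(5 * (n : ℝ))) * Real.exp (n / 2)) := by ring
            _ = _ := by rw [e]; ring
      _ ≤ (√2 / 4 * (1 - 2 / √(n + 1))) ^ n * n.factorial :=
          mul_le_mul (pow_le_pow_left₀ (Real.exp_pos _).le hbase n) hfac (by positivity)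
            (pow_nonneg ((Real.exp_pos _).le.trans hbase) n)
  have hpos : (0 : ℝ) < packingNumber n := lt_of_lt_of_le (by positivity) hL
  rw [abs_le]
  constructor
  · have h := Real.log_le_log (by positivity) hL
    rw [Real.log_mul (by positivity) (by positivity), Real.log_exp, Real.log_pow] at h
    linarith
  · have h6 : (packingNumber n : ℝ) ≤ Real.exp (5 * n) * (n : ℝ) ^ n := by
      refine hup.trans ?_
      rw [div_le_iff₀ (by positivity)]
      have h7 : √2 ^ n ≤ Real.exp (5 * n) := by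
        have h8 : √2 ≤ Real.exp 5 := by
          have h9 : √2 ≤ 2 := by
            rw [Real.sqrt_le_left (by norm_num)]; norm_num
          have h10 := Real.add_one_le_exp (5 : ℝ)
          linarith
        calc √2 ^ n ≤ Real.exp 5 ^ n := by gcongr
          _ = Real.exp (5 * n) := by rw [← Real.exp_nat_mul, mul_comm]
      have h11 : (1 : ℝ) ≤ √((n : ℝ) + 1) := by
        apply Real.le_sqrt_of_sq_le
        linarith
      calc √2 ^ n * (n : ℝ) ^ n ≤ Real.exp (5 * n) * (n : ℝ) ^ n := by gcongr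
        _ = Real.exp (5 * n) * (n : ℝ) ^ n * 1 := by ring
        _ ≤ Real.exp (5 * n) * (n : ℝ) ^ n * √(n + 1) := by gcongr
    have h := Real.log_le_log hpos h6
    rw [Real.log_mul (by positivity) (by positivity), Real.log_exp, Real.log_pow] at h
    linarith

end Pool.Agent.Y78.SC
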