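import Mathlib

set_option autoImplicit false

/-!
A regular simplex of edge one with small coordinates, from the Hartley transform.
-/

namespace Pool.Agent.Y78.SC

open Finset

/-- The Hartley kernel. -/
noncomputable def cas (x : ℝ) : ℝ := Real.cos x + Real.sin x

lemma cas_mul (a b : ℝ) : cas a * cas b = Real.cos (a - b) + Real.sin (a + b) := by
  unfold cas
  rw [Real.cos_sub, Real.sin_add]
  ring

lemma abs_cas_le (x : ℝ) : |cas x| ≤ √2 := by
  apply Real.abs_le_sqrt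
  unfold cas
  nlinarith [Real.sin_sq_add_cos_sq x, sq_nonneg (Real.cos x - Real.sin x)]

lemma cas_zero : cas 0 = 1 := by simp [cas]

lemma sum_exp (N : ℕ) (hN : 0 < N) (m : ℤ) :
    ∑ k ∈ range N, Complex.exp ((2 * Real.pi * m * k / N : ℝ) * Complex.I) =
      if (N : ℤ) ∣ m then (N : ℂ) else 0 := by
  have hN' : (N : ℂ) ≠ 0 := by exact_mod_cast hN.ne'
  set ζ : ℂ := Complex.exp ((2 * Real.pi * m / N : ℝ) * Complex.I) with hζ
  have h1 : ∀ k : ℕ, Complex.exp ((2 * Real.pi * m * k / N : ℝ) * Complex.I) = ζ ^ k := by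
    intro k
    rw [hζ, ← Complex.exp_nat_mul]
    congr 1
    push_cast
    ring
  simp_rw [h1]
  have hζN : ζ ^ N = 1 := by
    rw [hζ, ← Complex.exp_nat_mul]
    have : (N : ℂ) * ((2 * Real.pi * m / N : ℝ) * Complex.I) =
        (m : ℂ) * (2 * Real.pi * Complex.I) := by
      push_cast
      field_simp
    rw [this, Complex.exp_int_mul_two_pi_mul_I]
  split_ifs with h
  · obtain ⟨c, hc⟩ := h
    have : ζ = 1 := by
      rw [hζ]
      have e : (((2 * Real.pi * m / N : ℝ) : ℂ) * Complex.I) =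
          (c : ℂ) * (2 * Real.pi * Complex.I) := by
        rw [hc]
        push_cast
        field_simp
      rw [e, Complex.exp_int_mul_two_pi_mul_I]
    rw [this]
    simp
  · have hne : ζ ≠ 1 := by
      intro h1
      rw [hζ, Complex.exp_eq_one_iff] at h1
      obtain ⟨c, hc⟩ := h1
      apply h
      refine ⟨c, ?_⟩
      have hpi : (Real.pi : ℂ) ≠ 0 := by exact_mod_cast Real.pi_ne_zero
      have h2 : (m : ℂ) = N * c := by
        push_cast at hc
        field_simp at hc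
        linear_combination hc
      exact_mod_cast h2
    have h2 := mul_geom_sum ζ N
    rw [hζN, sub_self] at h2
    exact (mul_eq_zero.1 h2).resolve_left (sub_ne_zero.2 hne)

lemma sum_cos (N : ℕ) (hN : 0 < N) (m : ℤ) :
    ∑ k ∈ range N, Real.cos (2 * Real.pi * m * k / N) = if (N : ℤ) ∣ m then (N : ℝ) else 0 := by
  have h := congrArg Complex.re (sum_exp N hN m)
  rw [Complex.re_sum] at h
  simp_rw [Complex.exp_ofReal_mul_I_re] at h
  rw [h]
  split_ifs <;> simp

lemma sum_sin (N : ℕ) (hN : 0 < N) (m : ℤ) :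
    ∑ k ∈ range N, Real.sin (2 * Real.pi * m * k / N) = 0 := by
  have h := congrArg Complex.im (sum_exp N hN m)
  rw [Complex.im_sum] at h
  simp_rw [Complex.exp_ofReal_mul_I_im] at h
  rw [h]
  split_ifs <;> simp

/-- Orthogonality of the Hartley vectors. -/
lemma orth (N : ℕ) (hN : 0 < N) (j l : Fin N) :
    ∑ k ∈ range N, cas (2 * Real.pi * (j : ℕ) * k / N) * cas (2 * Real.pi * (l : ℕ) * k / N) =
      if j = l then (N : ℝ) else 0 := by
  have h1 : ∀ k : ℕ, cas (2 * Real.pi * (j : ℕ) * k / N) * cas (2 * Real.pi * (l : ℕ) * k / N) =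
      Real.cos (2 * Real.pi * (((j : ℕ) : ℤ) - ((l : ℕ) : ℤ) : ℤ) * k / N) +
      Real.sin (2 * Real.pi * (((j : ℕ) : ℤ) + ((l : ℕ) : ℤ) : ℤ) * k / N) := by
    intro k
    rw [cas_mul]
    congr 2
    · push_cast; ring
    · push_cast; ring
  simp_rw [h1]
  rw [Finset.sum_add_distrib, sum_cos N hN, sum_sin N hN, add_zero]
  by_cases hjl : j = l
  · subst hjl
    simp
  · rw [if_neg hjl, if_neg]
    intro hdvd
    apply hjl
    have hj := j.2
    have hl := l.2
    have : ((j : ℕ) : ℤ) - ((l : ℕ) : ℤ) = 0 := by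
      apply Int.eq_zero_of_abs_lt_dvd hdvd
      rw [abs_lt]
      constructor <;> omega
    apply Fin.ext
    omega

/-- The vertices of the simplex. -/
noncomputable def pt (n : ℕ) (j : Fin (n + 1)) : EuclideanSpace ℝ (Fin n) :=
  WithLp.toLp 2 fun k =>
    cas (2 * Real.pi * (j : ℕ) * ((k : ℕ) + 1 : ℕ) / (n + 1 : ℕ)) / √(2 * (n + 1))

lemma pt_apply (n : ℕ) (j : Fin (n + 1)) (k : Fin n) :
    pt n j k = cas (2 * Real.pi * (j : ℕ) * ((k : ℕ) + 1 : ℕ) / (n + 1 : ℕ)) / √(2 * (n + 1)) :=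
  rfl

lemma abs_pt_le (n : ℕ) (j : Fin (n + 1)) (k : Fin n) : |pt n j k| ≤ 1 / √(n + 1) := by
  rw [pt_apply, abs_div, abs_of_nonneg (Real.sqrt_nonneg _),
    Real.sqrt_mul (by norm_num : (0 : ℝ) ≤ 2)]
  have h2 : (0 : ℝ) < √2 := by positivity
  have h3 : (0 : ℝ) < √((n : ℝ) + 1) := by positivity
  rw [div_le_div_iff₀ (by positivity) h3, one_mul]
  exact mul_le_mul_of_nonneg_right (abs_cas_le _) h3.le

lemma dist_pt (n : ℕ) (j l : Fin (n + 1)) (hjl : j ≠ l) : dist (pt n j) (pt n l) = 1 := by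
  rw [EuclideanSpace.dist_eq]
  rw [show (1 : ℝ) = √1 by simp]
  congr 1
  have hs : √(2 * ((n : ℝ) + 1)) ^ 2 = 2 * ((n : ℝ) + 1) := Real.sq_sqrt (by positivity)
  have hs0 : √(2 * ((n : ℝ) + 1)) ≠ 0 := by positivity
  let f : ℕ → ℝ := fun k =>
    (cas (2 * Real.pi * (j : ℕ) * k / (n + 1 : ℕ)) - cas (2 * Real.pi * (l : ℕ) * k / (n + 1 : ℕ))) ^ 2
  have h1 : ∀ k : Fin n, dist (pt n j k) (pt n l k) ^ 2 = f ((k : ℕ) + 1) / (2 * (n + 1)) := by
    intro k
    rw [Real.dist_eq, sq_abs, pt_apply, pt_apply, ← sub_div, div_pow, hs]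
  simp_rw [h1]
  rw [← Finset.sum_div, Fin.sum_univ_eq_sum_range (fun k => f (k + 1)) n]
  have h2 : ∑ k ∈ range (n + 1), f k = ∑ k ∈ range n, f (k + 1) := by
    rw [Finset.sum_range_succ']
    have : f 0 = 0 := by simp [f]
    rw [this, add_zero]
  have h3 : ∑ k ∈ range (n + 1), f k = 2 * ((n : ℝ) + 1) := by
    have e : ∀ k, f k =
        cas (2 * Real.pi * (j : ℕ) * k / (n + 1 : ℕ)) * cas (2 * Real.pi * (j : ℕ) * k / (n + 1 : ℕ)) +
        cas (2 * Real.pi * (l : ℕ) * k / (n + 1 : ℕ)) * cas (2 * Real.pi * (l : ℕ) * k / (n + 1 : ℕ)) -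
        2 * (cas (2 * Real.pi * (j : ℕ) * k / (n + 1 : ℕ)) *
          cas (2 * Real.pi * (l : ℕ) * k / (n + 1 : ℕ))) := by
      intro k
      simp only [f]
      ring
    simp_rw [e]
    rw [Finset.sum_sub_distrib, Finset.sum_add_distrib, ← Finset.mul_sum,
      orth (n + 1) (Nat.succ_pos n) j j, orth (n + 1) (Nat.succ_pos n) l l,
      orth (n + 1) (Nat.succ_pos n) j l, if_pos rfl, if_pos rfl, if_neg hjl]
    push_cast
    ring
  rw [← h2, h3, div_self (by positivity)]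

end Pool.Agent.Y78.SC
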