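import Pool.Agent.Y78.SC.Vol
import Pool.Agent.Y78.SC.Defs

set_option autoImplicit false

/-!
Upper and lower bounds for the packing number.
-/

namespace Pool.Agent.Y78.SC

open Finset MeasureTheory
open scoped Pointwise

variable {n : ℕ}

/-- Every regular simplex of edge one has interior of at least this volume. -/
lemma vol_interior (hn : 1 ≤ n) (S : Set (EuclideanSpace ℝ (Fin n))) (hS : IsUnitSimplex S) :
    ENNReal.ofReal (√((n + 1) / 2 ^ n) * (1 / n) ^ n) ≤ volume (interior S) := by
  obtain ⟨v, hv, rfl⟩ := hS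
  have hn0 : (0 : ℝ) < n := by exact_mod_cast hn
  let B : Set (EuclideanSpace ℝ (Fin n)) := {b | ∀ i, (0 : ℝ) < b i ∧ b i < 1 / n}
  have hBopen : IsOpen B := by
    have : B = ⋂ i, {b : EuclideanSpace ℝ (Fin n) | (0 : ℝ) < b i ∧ b i < 1 / n} := by
      ext b; simp [B]
    rw [this]
    refine isOpen_iInter_of_finite fun i => ?_
    have hc : Continuous fun b : EuclideanSpace ℝ (Fin n) => b i := by fun_prop
    exact (isOpen_lt continuous_const hc).inter (isOpen_lt hc continuous_const)
  have hdet : LinearMap.det (lin v) ≠ 0 := by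
    rw [det_lin]
    intro h
    have := det_sq v hv
    rw [h] at this
    have h2 : (0 : ℝ) < (n + 1) / 2 ^ n := by positivity
    rw [← this] at h2
    norm_num at h2
  have hopen : IsOpen (lin v '' B) := by
    have h1 := (LinearMap.equivOfDetNeZero (lin v) hdet).toContinuousLinearEquiv.toHomeomorph.isOpenMap B hBopen
    exact h1
  have hopen2 : IsOpen (v 0 +ᵥ (lin v '' B)) := hopen.vadd (v 0)
  have hsub : (v 0 +ᵥ (lin v '' B)) ⊆ convexHull ℝ (Set.range v) := by
    rintro _ ⟨_, ⟨b, hb, rfl⟩, rfl⟩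
    have hsum : ∑ i, b i ≤ 1 := by
      calc ∑ i, b i ≤ ∑ _i : Fin n, (1 / n : ℝ) := Finset.sum_le_sum fun i _ => (hb i).2.le
        _ = 1 := by
          rw [Finset.sum_const, Finset.card_univ, Fintype.card_fin, nsmul_eq_mul]
          field_simp
    have e : (v 0 +ᵥ lin v b) = ∑ i : Fin (n + 1),
        (Fin.cons (1 - ∑ i, b i) (fun i => b i) : Fin (n + 1) → ℝ) i • v i := by
      rw [Fin.sum_univ_succ, Fin.cons_zero]
      simp only [Fin.cons_succ]
      rw [lin_apply, vadd_eq_add, sub_smul, one_smul]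
      simp only [smul_sub, Finset.sum_sub_distrib, Finset.sum_smul]
      abel
    change (v 0 +ᵥ lin v b) ∈ _
    rw [e]
    refine (convex_convexHull ℝ _).sum_mem ?_ ?_ ?_
    · intro i _
      refine Fin.cases ?_ ?_ i
      · rw [Fin.cons_zero]; linarith
      · intro j; rw [Fin.cons_succ]; exact (hb j).1.le
    · rw [Fin.sum_univ_succ, Fin.cons_zero]
      simp only [Fin.cons_succ]
      ring
    · intro i _
      exact subset_convexHull ℝ _ (Set.mem_range_self i)
  have h1 := measure_mono (μ := volume) (interior_maximal hsub hopen2)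
  refine le_trans (le_of_eq ?_) h1
  rw [measure_vadd, vol_image v hv, ENNReal.ofReal_mul (by positivity), vol_open_box, sub_zero,
    ENNReal.ofReal_pow (by positivity)]

/-- The upper bound for the number of simplices of a packing. -/
lemma card_le (hn : 1 ≤ n) (F : Finset (Set (EuclideanSpace ℝ (Fin n)))) (hF : IsPacking F) :
    (F.card : ℝ) ≤ (√2) ^ n * n ^ n / √(n + 1) := by
  have hn0 : (0 : ℝ) < n := by exact_mod_cast hn
  have h1 : volume (⋃ S ∈ F, interior S) = ∑ S ∈ F, volume (interior S) := by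
    apply measure_biUnion_finset
    · intro S hS T hT hST
      exact hF.2 S hS T hT hST
    · intro S _
      exact isOpen_interior.measurableSet
  have h2 : (⋃ S ∈ F, interior S) ⊆ cube n := by
    intro x hx
    simp only [Set.mem_iUnion] at hx
    obtain ⟨S, hS, hx⟩ := hx
    exact (hF.1 S hS).2 (interior_subset hx)
  have h3 : volume (cube n) = 1 := by
    have := vol_box (n := n) 0 1
    rw [sub_zero, ENNReal.ofReal_one, one_pow] at this
    exact this
  have h4 := measure_mono (μ := volume) h2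
  rw [h1, h3] at h4
  set c : ℝ := √((n + 1) / 2 ^ n) * (1 / n) ^ n with hc
  have hcpos : 0 < c := by rw [hc]; positivity
  have h5 : (F.card : ENNReal) * ENNReal.ofReal c ≤ 1 := by
    refine le_trans ?_ h4
    rw [← nsmul_eq_mul, ← Finset.sum_const]
    exact Finset.sum_le_sum fun S hS => vol_interior hn S (hF.1 S hS).1
  have h6 : (F.card : ℝ) * c ≤ 1 := by
    have e : (F.card : ENNReal) * ENNReal.ofReal c = ENNReal.ofReal (F.card * c) := by
      rw [ENNReal.ofReal_mul (p := (F.card : ℝ)) (q := c) (by positivity),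
        ENNReal.ofReal_natCast]
    rw [e, ← ENNReal.ofReal_one] at h5
    exact (ENNReal.ofReal_le_ofReal_iff (by norm_num)).1 h5
  have h7 : (√2) ^ n * n ^ n / √(n + 1) * c = 1 := by
    rw [hc, Real.sqrt_div (by positivity)]
    have e2 : √((2 : ℝ) ^ n) = (√2) ^ n := by
      rw [← Real.sqrt_sq (by positivity : (0 : ℝ) ≤ (√2) ^ n), ← pow_mul, mul_comm n 2, pow_mul,
        Real.sq_sqrt (by norm_num)]
    rw [e2]
    have h8 : √((n : ℝ) + 1) ≠ 0 := by positivity
    have h9 : (√2 : ℝ) ^ n ≠ 0 := by positivity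
    have h10 : (n : ℝ) ^ n * (1 / n) ^ n = 1 := by
      rw [← mul_pow, mul_one_div_cancel hn0.ne', one_pow]
    field_simp
    exact h10
  rw [← mul_le_mul_iff_of_pos_right hcpos, h7]
  exact h6

lemma bddAbove (hn : 1 ≤ n) : BddAbove {k : ℕ | ∃ F : Finset (Set (EuclideanSpace ℝ (Fin n))),
    IsPacking F ∧ F.card = k} := by
  refine ⟨⌊(√2) ^ n * (n : ℝ) ^ n / √(n + 1)⌋₊, ?_⟩
  rintro k ⟨F, hF, rfl⟩
  exact Nat.le_floor (card_le hn F hF)

/-- The upper bound. -/
theorem packingNumber_le (hn : 1 ≤ n) :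
    (packingNumber n : ℝ) ≤ (√2) ^ n * n ^ n / √(n + 1) := by
  have hne : {k : ℕ | ∃ F : Finset (Set (EuclideanSpace ℝ (Fin n))),
    IsPacking F ∧ F.card = k}.Nonempty := ⟨0, ∅, ⟨by simp, by simp⟩, by simp⟩
  obtain ⟨F, hF, hk⟩ := Nat.sSup_mem hne (bddAbove hn)
  have := card_le hn F hF
  rw [hk] at this
  exact this

/-- The basic simplex. -/
noncomputable def S0 (n : ℕ) : Set (EuclideanSpace ℝ (Fin n)) := convexHull ℝ (Set.range (pt n))

lemma S0_nonempty : (S0 n).Nonempty := ⟨pt n 0, subset_convexHull ℝ _ (Set.mem_range_self 0)⟩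

lemma abs_le_of_mem_S0 {p : EuclideanSpace ℝ (Fin n)} (hp : p ∈ S0 n) (k : Fin n) :
    |p k| ≤ 1 / √(n + 1) := by
  have hconv : Convex ℝ {p : EuclideanSpace ℝ (Fin n) | |p k| ≤ 1 / √(n + 1)} := by
    intro x hx y hy a b ha hb hab
    simp only [Set.mem_ofPred_eq] at hx hy ⊢
    rw [PiLp.add_apply, PiLp.smul_apply, PiLp.smul_apply, smul_eq_mul, smul_eq_mul]
    calc |a * x k + b * y k| ≤ |a * x k| + |b * y k| := abs_add_le _ _
      _ = a * |x k| + b * |y k| := by rw [abs_mul, abs_mul, abs_of_nonneg ha, abs_of_nonneg hb]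
      _ ≤ a * (1 / √(n + 1)) + b * (1 / √(n + 1)) := by gcongr
      _ = 1 / √(n + 1) := by rw [← add_mul, hab, one_mul]
  have h := convexHull_min (s := Set.range (pt n)) (by
    rintro _ ⟨j, rfl⟩
    exact abs_pt_le n j k) hconv
  exact h hp

lemma translate_simplex (x : EuclideanSpace ℝ (Fin n)) : IsUnitSimplex (x +ᵥ S0 n) := by
  refine ⟨fun i => x + pt n i, ?_, ?_⟩
  · intro i j hij
    rw [dist_add_left]
    exact dist_pt n i j hij
  · rw [S0, ← convexHull_vadd]
    congr 1
    ext y
    constructor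
    · rintro ⟨_, ⟨i, rfl⟩, rfl⟩
      exact ⟨i, rfl⟩
    · rintro ⟨i, rfl⟩
      exact ⟨pt n i, ⟨i, rfl⟩, rfl⟩

/-- The difference body is contained in the linear image of a cross-polytope. -/
lemma diff_subset : S0 n - S0 n ⊆ lin (pt n) '' {b | ∑ i, |b i| ≤ 2} := by
  rw [S0, ← convexHull_sub]
  have hconv0 : Convex ℝ {b : EuclideanSpace ℝ (Fin n) | ∑ i, |b i| ≤ 2} := by
    intro x hx y hy a b ha hb hab
    simp only [Set.mem_ofPred_eq] at hx hy ⊢
    calc ∑ i, |(a • x + b • y) i| ≤ ∑ i, (a * |x i| + b * |y i|) := by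
          refine Finset.sum_le_sum fun i _ => ?_
          rw [PiLp.add_apply, PiLp.smul_apply, PiLp.smul_apply, smul_eq_mul, smul_eq_mul]
          calc |a * x i + b * y i| ≤ |a * x i| + |b * y i| := abs_add_le _ _
            _ = a * |x i| + b * |y i| := by
              rw [abs_mul, abs_mul, abs_of_nonneg ha, abs_of_nonneg hb]
      _ = a * ∑ i, |x i| + b * ∑ i, |y i| := by
          rw [Finset.sum_add_distrib, Finset.mul_sum, Finset.mul_sum]
      _ ≤ a * 2 + b * 2 := by gcongr
      _ = 2 := by rw [← add_mul, hab, one_mul]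
  have hconv := hconv0.linear_image (lin (pt n))
  refine convexHull_min ?_ hconv
  rintro _ ⟨_, ⟨i, rfl⟩, _, ⟨j, rfl⟩, rfl⟩
  let c : Fin (n + 1) → Fin n → ℝ := fun i k => if i = k.succ then 1 else 0
  have hc1 : ∀ i, ∑ k, c i k • (pt n k.succ - pt n 0) = pt n i - pt n 0 := by
    intro i
    refine Fin.cases ?_ ?_ i
    · rw [sub_self]
      refine Finset.sum_eq_zero fun k _ => ?_
      simp only [c]
      rw [if_neg (Fin.succ_ne_zero k).symm, zero_smul]
    · intro i'
      rw [Finset.sum_eq_single i']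
      · simp [c]
      · intro k _ hk
        simp only [c]
        rw [if_neg (fun h => hk (Fin.succ_injective _ h).symm), zero_smul]
      · intro h; exact absurd (Finset.mem_univ _) h
  have hc2 : ∀ i, ∑ k, |c i k| ≤ 1 := by
    intro i
    refine Fin.cases ?_ ?_ i
    · refine le_trans (le_of_eq (Finset.sum_eq_zero fun k _ => ?_)) zero_le_one
      simp only [c]
      rw [if_neg (Fin.succ_ne_zero k).symm, abs_zero]
    · intro i'
      rw [Finset.sum_eq_single i']
      · simp [c]
      · intro k _ hk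
        simp only [c]
        rw [if_neg (fun h => hk (Fin.succ_injective _ h).symm), abs_zero]
      · intro h; exact absurd (Finset.mem_univ _) h
  refine ⟨WithLp.toLp 2 fun k => c i k - c j k, ?_, ?_⟩
  · simp only [Set.mem_ofPred_eq]
    calc ∑ k, |c i k - c j k| ≤ ∑ k, (|c i k| + |c j k|) :=
          Finset.sum_le_sum fun k _ => abs_sub _ _
      _ = ∑ k, |c i k| + ∑ k, |c j k| := Finset.sum_add_distrib
      _ ≤ 1 + 1 := add_le_add (hc2 i) (hc2 j)
      _ = 2 := by norm_num
  · rw [lin_apply]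
    simp only [sub_smul, Finset.sum_sub_distrib]
    rw [hc1, hc1]
    abel

lemma vol_diff (hn : 1 ≤ n) : volume (S0 n - S0 n) ≤
    ENNReal.ofReal (√((n + 1) / 2 ^ n) * (4 ^ n / n.factorial)) := by
  refine (measure_mono diff_subset).trans (le_of_eq ?_)
  rw [vol_image (pt n) (dist_pt n), vol_l1 hn, ← ENNReal.ofReal_mul (by positivity)]

end Pool.Agent.Y78.SC
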