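import Pool.Agent.Y78.SC.Hartley

set_option autoImplicit false

/-!
Volumes: the edge matrix of a regular simplex, cross-polytopes and boxes.
-/

namespace Pool.Agent.Y78.SC

open Finset MeasureTheory

variable {n : ℕ}

/-- The matrix of edge vectors from the vertex zero. -/
noncomputable def mat (v : Fin (n + 1) → EuclideanSpace ℝ (Fin n)) : Matrix (Fin n) (Fin n) ℝ :=
  Matrix.of fun k i => v i.succ k - v 0 k

lemma inner_edge (v : Fin (n + 1) → EuclideanSpace ℝ (Fin n))
    (hv : ∀ i j, i ≠ j → dist (v i) (v j) = 1) (i j : Fin n) :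
    inner ℝ (v i.succ - v 0) (v j.succ - v 0) = if i = j then (1 : ℝ) else 1 / 2 := by
  rw [real_inner_eq_norm_mul_self_add_norm_mul_self_sub_norm_sub_mul_self_div_two,
    sub_sub_sub_cancel_right, ← dist_eq_norm, ← dist_eq_norm, ← dist_eq_norm,
    hv _ _ (Fin.succ_ne_zero i), hv _ _ (Fin.succ_ne_zero j)]
  by_cases h : i = j
  · subst h
    simp
  · rw [if_neg h, hv _ _ (fun h' => h (Fin.succ_injective _ h'))]
    norm_num

lemma gram (v : Fin (n + 1) → EuclideanSpace ℝ (Fin n))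
    (hv : ∀ i j, i ≠ j → dist (v i) (v j) = 1) :
    (mat v).transpose * mat v = (1 / 2 : ℝ) • (1 + Matrix.replicateCol (Fin 1) (fun _ => (1 : ℝ)) *
      Matrix.replicateRow (Fin 1) (fun _ => (1 : ℝ))) := by
  ext i j
  have h := inner_edge v hv j i
  rw [EuclideanSpace.inner_eq_star_dotProduct] at h
  rw [Matrix.mul_apply]
  have e : ∑ k, (mat v).transpose i k * mat v k j =
      (v i.succ - v 0).ofLp ⬝ᵥ star (v j.succ - v 0).ofLp := by
    simp only [dotProduct, Matrix.transpose_apply, mat, Matrix.of_apply]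
    rfl
  rw [e, h]
  simp only [Matrix.smul_apply, Matrix.add_apply, Matrix.mul_apply, Matrix.replicateCol_apply,
    Matrix.replicateRow_apply, Finset.univ_unique, Finset.sum_singleton, smul_eq_mul,
    Matrix.one_apply]
  by_cases hij : j = i
  · subst hij; norm_num
  · rw [if_neg hij, if_neg (Ne.symm hij)]; norm_num

lemma det_sq (v : Fin (n + 1) → EuclideanSpace ℝ (Fin n))
    (hv : ∀ i j, i ≠ j → dist (v i) (v j) = 1) :
    (mat v).det ^ 2 = (n + 1) / 2 ^ n := by
  have h := congrArg Matrix.det (gram v hv)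
  rw [Matrix.det_mul, Matrix.det_transpose, Matrix.det_smul, Matrix.det_one_add_mul_comm,
    Matrix.det_fin_one] at h
  rw [sq, h]
  simp only [Matrix.add_apply, Matrix.mul_apply, Matrix.replicateCol_apply,
    Matrix.replicateRow_apply, Matrix.one_apply_eq, mul_one, Finset.sum_const, Finset.card_univ,
    Fintype.card_fin, nsmul_eq_mul]
  rw [div_pow, one_pow]
  ring

lemma abs_det (v : Fin (n + 1) → EuclideanSpace ℝ (Fin n))
    (hv : ∀ i j, i ≠ j → dist (v i) (v j) = 1) :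
    |(mat v).det| = √((n + 1) / 2 ^ n) := by
  rw [← det_sq v hv, Real.sqrt_sq_eq_abs]

/-- The linear map sending the standard basis to the edge vectors. -/
noncomputable def lin (v : Fin (n + 1) → EuclideanSpace ℝ (Fin n)) :
    EuclideanSpace ℝ (Fin n) →ₗ[ℝ] EuclideanSpace ℝ (Fin n) :=
  Matrix.toEuclideanLin (mat v)

lemma lin_apply (v : Fin (n + 1) → EuclideanSpace ℝ (Fin n)) (b : EuclideanSpace ℝ (Fin n)) :
    lin v b = ∑ i, b i • (v i.succ - v 0) := by
  ext k
  have h1 : (lin v b) k = ∑ i, (v i.succ k - v 0 k) * b i := rfl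
  rw [h1]
  have h2 : (∑ i, b i • (v i.succ - v 0)) k = ∑ i, (b i • (v i.succ - v 0)) k := by
    rw [WithLp.ofLp_sum, Finset.sum_apply]
  rw [h2]
  refine Finset.sum_congr rfl fun i _ => ?_
  rw [PiLp.smul_apply, PiLp.sub_apply, smul_eq_mul, mul_comm]

lemma det_lin (v : Fin (n + 1) → EuclideanSpace ℝ (Fin n)) :
    LinearMap.det (lin v) = (mat v).det := by
  unfold lin
  rw [Matrix.toEuclideanLin_eq_toLin_orthonormal, LinearMap.det_toLin]

lemma vol_image (v : Fin (n + 1) → EuclideanSpace ℝ (Fin n))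
    (hv : ∀ i j, i ≠ j → dist (v i) (v j) = 1) (s : Set (EuclideanSpace ℝ (Fin n))) :
    volume (lin v '' s) = ENNReal.ofReal √((n + 1) / 2 ^ n) * volume s := by
  rw [Measure.addHaar_image_linearMap, det_lin, abs_det v hv]

lemma vol_l1 (hn : 1 ≤ n) :
    volume {b : EuclideanSpace ℝ (Fin n) | ∑ i, |b i| ≤ 2} =
      ENNReal.ofReal (4 ^ n / n.factorial) := by
  have : Nonempty (Fin n) := ⟨⟨0, hn⟩⟩
  have h := MeasureTheory.volume_sum_rpow_le (ι := Fin n) (p := 1) le_rfl 2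
  have e1 : {x : Fin n → ℝ | (∑ i, |x i| ^ (1 : ℝ)) ^ (1 / (1 : ℝ)) ≤ 2} =
      {x : Fin n → ℝ | ∑ i, |x i| ≤ 2} := by
    ext x
    simp
  rw [e1] at h
  have e2 : {b : EuclideanSpace ℝ (Fin n) | ∑ i, |b i| ≤ 2} =
      (WithLp.ofLp : EuclideanSpace ℝ (Fin n) → (Fin n → ℝ)) ⁻¹' {x | ∑ i, |x i| ≤ 2} := rfl
  have hmeas : MeasurableSet {x : Fin n → ℝ | ∑ i, |x i| ≤ 2} :=
    measurableSet_le (by fun_prop) measurable_const
  rw [e2, (PiLp.volume_preserving_ofLp (Fin n)).measure_preimage hmeas.nullMeasurableSet, h]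
  rw [Fintype.card_fin, ← ENNReal.ofReal_pow (by norm_num), ← ENNReal.ofReal_mul (by positivity)]
  congr 1
  have g1 : Real.Gamma (1 / 1 + 1) = 1 := by norm_num [Real.Gamma_two]
  have g2 : Real.Gamma ((n : ℝ) / 1 + 1) = n.factorial := by
    rw [div_one]; exact Real.Gamma_nat_eq_factorial n
  rw [g1, g2, mul_one, mul_div_assoc', ← mul_pow]
  norm_num

lemma vol_box (a b : ℝ) :
    volume {x : EuclideanSpace ℝ (Fin n) | ∀ i, a ≤ x i ∧ x i ≤ b} = ENNReal.ofReal (b - a) ^ n := by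
  have e2 : {x : EuclideanSpace ℝ (Fin n) | ∀ i, a ≤ x i ∧ x i ≤ b} =
      (WithLp.ofLp : EuclideanSpace ℝ (Fin n) → (Fin n → ℝ)) ⁻¹'
        (Set.pi Set.univ fun _ => Set.Icc a b) := by
    ext x
    simp only [Set.mem_ofPred_eq, Set.mem_preimage, Set.mem_pi, Set.mem_univ, Set.mem_Icc,
      true_implies]
  rw [e2, (PiLp.volume_preserving_ofLp (Fin n)).measure_preimage
    (MeasurableSet.univ_pi fun _ => measurableSet_Icc).nullMeasurableSet, volume_pi_pi]
  simp

lemma vol_open_box (a b : ℝ) :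
    volume {x : EuclideanSpace ℝ (Fin n) | ∀ i, a < x i ∧ x i < b} = ENNReal.ofReal (b - a) ^ n := by
  have e2 : {x : EuclideanSpace ℝ (Fin n) | ∀ i, a < x i ∧ x i < b} =
      (WithLp.ofLp : EuclideanSpace ℝ (Fin n) → (Fin n → ℝ)) ⁻¹'
        (Set.pi Set.univ fun _ => Set.Ioo a b) := by
    ext x
    simp only [Set.mem_ofPred_eq, Set.mem_preimage, Set.mem_pi, Set.mem_univ, Set.mem_Ioo,
      true_implies]
  rw [e2, (PiLp.volume_preserving_ofLp (Fin n)).measure_preimage
    (MeasurableSet.univ_pi fun _ => measurableSet_Ioo).nullMeasurableSet, volume_pi_pi]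
  simp

end Pool.Agent.Y78.SC
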